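import Pool.Agent.Lib.MP_3eb21e_gt.Ch.Top

/-!
Chains mod 2 on finite sets of sequences: the Boolean monoid algebra, faces and prisms.
-/

noncomputable section

namespace Pool.Agent.Lib.MP_3eb21e_gt.Pr

open Finset
open Pool.Agent.Lib.MP_3eb21e_gt.Ch (F add_self)
open scoped Classical

/-- finite sets under union -/
def U (X : Type) : Type := Finset X

instance (X : Type) : CommMonoid (U X) where
  mul A B := @Union.union (Finset X) _ A B
  one := (∅ : Finset X)
  mul_assoc := union_assoc
  one_mul := empty_union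
  mul_one := union_empty
  mul_comm := union_comm

abbrev Chn (X : Type) := MonoidAlgebra F (U X)
abbrev En (X : Type) := Module.End F (Chn X)

variable {X : Type}

def e (A : Finset X) : Chn X := MonoidAlgebra.single (show U X from A) 1

def lin (φ : Finset X → Chn X) : En X :=
  Finsupp.linearCombination F (show U X → Chn X from φ) ∘ₗ
    (MonoidAlgebra.coeffLinearEquiv F).toLinearMap

def co (c : Finset X) : Chn X →ₗ[F] F :=
  Finsupp.lapply (show U X from c) ∘ₗ (MonoidAlgebra.coeffLinearEquiv F).toLinearMap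

@[simp] lemma lin_e (φ : Finset X → Chn X) (c : Finset X) : lin φ (e c) = φ c := by
  simp [lin, e]

lemma co_e (c A : Finset X) : co c (e A) = if A = c then 1 else 0 := by
  simp only [co, e, LinearMap.comp_apply, LinearEquiv.coe_coe,
    MonoidAlgebra.coeffLinearEquiv_apply, MonoidAlgebra.coeff_single, Finsupp.lapply_apply]
  rw [Finsupp.single_apply]
  congr 1

lemma e_mul (A B : Finset X) : e A * e B = e (A ∪ B) := by
  unfold e
  rw [MonoidAlgebra.single_mul_single, one_mul]
  rfl

lemma e_empty : e (∅ : Finset X) = 1 := rfl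

lemma ext_e {M : Type} [AddCommMonoid M] [Module F M] {α β : Chn X →ₗ[F] M}
    (h : ∀ c, α (e c) = β (e c)) : α = β := by
  refine MonoidAlgebra.lhom_ext' fun c => LinearMap.ext_ring ?_
  exact h c

/-- span of a set of cells -/
def Sp (K : Set (Finset X)) : Submodule F (Chn X) := Submodule.span F (e '' K)

lemma e_mem {K : Set (Finset X)} {c : Finset X} (h : c ∈ K) : e c ∈ Sp K :=
  Submodule.subset_span ⟨c, h, rfl⟩

lemma Sp_mono {K K' : Set (Finset X)} (h : K ⊆ K') : Sp K ≤ Sp K' :=
  Submodule.span_mono (Set.image_mono h)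

lemma Sp_map {M : Type} [AddCommMonoid M] [Module F M] {K : Set (Finset X)} (α : Chn X →ₗ[F] M)
    (P : Submodule F M) (h : ∀ c ∈ K, α (e c) ∈ P) {x : Chn X} (hx : x ∈ Sp K) : α x ∈ P := by
  have : Sp K ≤ P.comap α := Submodule.span_le.2 (by rintro _ ⟨c, hc, rfl⟩; exact h c hc)
  exact this hx

lemma Sp_eq {M : Type} [AddCommMonoid M] [Module F M] {K : Set (Finset X)} (α β : Chn X →ₗ[F] M)
    (h : ∀ c ∈ K, α (e c) = β (e c)) {x : Chn X} (hx : x ∈ Sp K) : α x = β x :=
  LinearMap.eqOn_span (by rintro _ ⟨c, hc, rfl⟩; exact h c hc) hx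

lemma Sp_supp {K : Set (Finset X)} {x : Chn X} (hx : x ∈ Sp K) {c : Finset X} (hc : co c x ≠ 0) :
    c ∈ K := by
  by_contra h
  refine hc (Sp_eq (co c) 0 (fun c' hc' => ?_) hx)
  have : c' ≠ c := fun e => h (e ▸ hc')
  simp [co_e, this]

lemma mem_Sp {K : Set (Finset X)} {x : Chn X} (h : ∀ c, co c x ≠ 0 → c ∈ K) : x ∈ Sp K := by
  have h1 : x ∈ MonoidAlgebra.supported F F (show Set (U X) from K) := by
    rw [MonoidAlgebra.mem_supported']
    intro c hc
    by_contra h2
    exact hc (h c h2)
  rw [MonoidAlgebra.supported_eq_span_single] at h1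
  exact h1

lemma Sp_mul {K K' K'' : Set (Finset X)} (h : ∀ s ∈ K, ∀ t ∈ K', s ∪ t ∈ K'') {x y : Chn X}
    (hx : x ∈ Sp K) (hy : y ∈ Sp K') : x * y ∈ Sp K'' :=
  Sp_map (LinearMap.mulRight F y) _ (fun s hs => Sp_map (LinearMap.mulLeft F (e s)) _
    (fun t ht => by
      rw [LinearMap.mulLeft_apply, e_mul]
      exact e_mem (h s hs t ht)) hy) hx

lemma sq_self (x : Chn X) : x * x = x := by
  have hx : x ∈ Sp (Set.univ : Set (Finset X)) := mem_Sp fun _ _ => trivial
  induction hx using Submodule.span_induction with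
  | mem x h =>
    obtain ⟨c, -, rfl⟩ := h
    rw [e_mul, union_self]
  | zero => simp
  | add x y _ _ h1 h2 =>
    have := add_self (x * y)
    linear_combination h1 + h2 + this
  | smul a x _ h =>
    rw [smul_mul_smul_comm, h, Ch.F_sq]

lemma prod_img {Y : Type} (A : Finset Y) (g : Y → Y) (f : Y → Chn X) :
    ∏ a ∈ A, f (g a) = ∏ b ∈ A.image g, f b := by
  induction A using Finset.induction_on with
  | empty => simp
  | insert a A ha ih =>
    rw [prod_insert ha, image_insert, ih]
    by_cases h : g a ∈ A.image g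
    · rw [insert_eq_of_mem h, ← mul_prod_erase _ _ h, ← mul_assoc, sq_self]
    · rw [prod_insert h]

/-- the map of chains induced by a map of the elements -/
def Im (f : X → X) : En X := lin fun A => e (A.image f)

@[simp] lemma Im_e (f : X → X) (A : Finset X) : Im f (e A) = e (A.image f) := lin_e _ _

lemma Im_mul (f g : X → X) : Im f * Im g = Im (f ∘ g) :=
  ext_e fun c => by simp [image_image]

lemma Im_id : Im (id : X → X) = 1 := ext_e fun c => by simp

lemma Im_map_mul (f : X → X) (x y : Chn X) : Im f (x * y) = Im f x * Im f y := by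
  have h1 : ∀ A, Im f ∘ₗ LinearMap.mulLeft F (e A) = LinearMap.mulLeft F (Im f (e A)) ∘ₗ Im f :=
    fun A => ext_e fun B => by simp [e_mul, image_union]
  have h2 : Im f ∘ₗ LinearMap.mulRight F y = LinearMap.mulRight F (Im f y) ∘ₗ Im f :=
    ext_e fun A => by simpa using LinearMap.congr_fun (h1 A) y
  simpa using LinearMap.congr_fun h2 x

lemma Im_prod {Y : Type} (f : X → X) (A : Finset Y) (x : Y → Chn X) :
    Im f (∏ a ∈ A, x a) = ∏ a ∈ A, Im f (x a) := by
  induction A using Finset.induction_on with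
  | empty => rw [prod_empty, prod_empty, ← e_empty, Im_e, image_empty]
  | insert a A ha ih => rw [prod_insert ha, prod_insert ha, Im_map_mul, ih]

lemma expand {Kf : Finset (Finset X)} {x : Chn X} (hx : x ∈ Sp (Kf : Set (Finset X))) {M : Type}
    [AddCommMonoid M] [Module F M] (α : Chn X →ₗ[F] M) : α x = ∑ c ∈ Kf, co c x • α (e c) := by
  have := Sp_eq α (∑ c ∈ Kf, (co c).smulRight (α (e c)))
    (fun c hc => by
      rw [LinearMap.sum_apply, sum_eq_single_of_mem c hc]
      · simp [co_e]
      · intro b _ hb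
        simp [co_e, hb.symm]) hx
  simpa [LinearMap.sum_apply] using this

lemma tr_comm (K K' : Finset (Finset X)) (α β : En X)
    (hα : ∀ c ∈ K', α (e c) ∈ Sp (K : Set (Finset X)))
    (hβ : ∀ c ∈ K, β (e c) ∈ Sp (K' : Set (Finset X))) :
    ∑ c ∈ K, co c (α (β (e c))) = ∑ c ∈ K', co c (β (α (e c))) := by
  rw [sum_congr rfl fun c hc => congrArg (co c) (expand (hβ c hc) α),
    sum_congr rfl fun c hc => congrArg (co c) (expand (hα c hc) β)]
  simp only [map_sum, map_smul, smul_eq_mul]
  rw [sum_comm]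
  simp only [mul_comm]

variable {P : Type}

/-- delete entry `j` -/
def fc (j : ℕ) (a : ℕ → P) : ℕ → P := fun t => a (if t < j then t else t + 1)
/-- apply `p` to the first `L` entries -/
def ap (L : ℕ) (p : P → P) (a : ℕ → P) : ℕ → P := fun t => if t < L then p (a t) else a t
/-- the prism simplices -/
def pr (i : ℕ) (p : P → P) (a : ℕ → P) : ℕ → P := fun t => if t ≤ i then p (a t) else a (t - 1)

lemma fc_fc {i j : ℕ} (h : i ≤ j) : (fc i ∘ fc (j + 1) : (ℕ → P) → _) = fc j ∘ fc i := by
  funext a t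
  simp only [Function.comp, fc]
  congr 1
  split_ifs <;> omega

lemma fc_pr_le {i j : ℕ} (h : j ≤ i) (p : P → P) : fc j ∘ pr (i + 1) p = pr i p ∘ fc j := by
  funext a t
  simp only [Function.comp, fc, pr]
  split_ifs <;> first | rfl | omega | (congr 1; omega)

lemma fc_pr_self (i : ℕ) (p : P → P) : fc i ∘ pr i p = ap i p := by
  funext a t
  simp only [Function.comp, fc, pr, ap]
  split_ifs <;> first | rfl | omega

lemma fc_pr_succ (i : ℕ) (p : P → P) : fc (i + 1) ∘ pr i p = ap (i + 1) p := by
  funext a t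
  simp only [Function.comp, fc, pr, ap]
  split_ifs <;> first | rfl | omega

lemma fc_pr_lt {i j : ℕ} (h : i < j) (p : P → P) : fc (j + 1) ∘ pr i p = pr i p ∘ fc j := by
  funext a t
  simp only [Function.comp, fc, pr]
  split_ifs <;> first | rfl | omega | (congr 1; omega)

lemma fc_ap {j L : ℕ} (h : j ≤ L) (p : P → P) : fc j ∘ ap (L + 1) p = ap L p ∘ fc j := by
  funext a t
  simp only [Function.comp, fc, ap]
  split_ifs <;> first | rfl | omega

lemma ap_zero (p : P → P) : ap 0 p = id := by
  funext a t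
  simp [ap]

def D (j : ℕ) : En (ℕ → P) := Im (fc j)
def bd (L : ℕ) : En (ℕ → P) := ∑ j ∈ range L, D j
def hh (p : P → P) (L : ℕ) : En (ℕ → P) := ∑ i ∈ range L, Im (pr i p)

lemma bd_succ (L : ℕ) : (bd (L + 1) : En (ℕ → P)) = bd L + D L := sum_range_succ _ _
lemma hh_succ (p : P → P) (L : ℕ) : hh p (L + 1) = hh p L + Im (pr L p) := sum_range_succ _ _
lemma bd_zero : (bd 0 : En (ℕ → P)) = 0 := rfl

lemma bd_bd (L : ℕ) : (bd L * bd (L + 1) : En (ℕ → P)) = 0 := by
  induction L with
  | zero => simp [bd_zero]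
  | succ L ih =>
    have h1 : (bd L * D (L + 1) : En (ℕ → P)) = D L * bd L := by
      unfold bd
      rw [sum_mul, mul_sum]
      refine sum_congr rfl fun i hi => ?_
      simp only [D, Im_mul, fc_fc (mem_range.1 hi).le]
    have h2 : (D L * D (L + 1) : En (ℕ → P)) = D L * D L := by
      simp only [D, Im_mul, fc_fc le_rfl]
    rw [bd_succ (L + 1), mul_add, bd_succ L, add_mul, add_mul, ← bd_succ L, ih, h1, h2, bd_succ L,
      mul_add, zero_add]
    exact add_self _

lemma bd_ap (p : P → P) (L : ℕ) : bd L * Im (ap L p) = Im (ap (L - 1) p) * bd L := by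
  cases L with
  | zero => simp [bd_zero]
  | succ L =>
    unfold bd
    rw [sum_mul, mul_sum]
    refine sum_congr rfl fun i hi => ?_
    simp only [D, Im_mul, fc_ap (Nat.lt_succ_iff.1 (mem_range.1 hi)), Nat.add_sub_cancel]

lemma prism (p : P → P) (L : ℕ) :
    bd (L + 1) * hh p L + hh p (L - 1) * bd L = 1 + Im (ap L p) := by
  cases L with
  | zero =>
    rw [ap_zero, Im_id, add_self]
    simp [hh, bd_zero]
  | succ L =>
    rw [Nat.add_sub_cancel]
    induction L with
    | zero =>
      simp only [bd, hh, zero_add, sum_range_succ, sum_range_zero, add_mul, zero_mul, add_zero, D,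
        Im_mul]
      rw [fc_pr_self, ap_zero, Im_id, show (1 : ℕ) = 0 + 1 from rfl, fc_pr_succ]
    | succ L ih =>
      have a1 : bd (L + 1) * Im (pr (L + 1) p) = Im (pr L p) * bd (L + 1) := by
        unfold bd
        rw [sum_mul, mul_sum]
        refine sum_congr rfl fun i hi => ?_
        simp only [D, Im_mul, fc_pr_le (Nat.lt_succ_iff.1 (mem_range.1 hi))]
      have a2 : D (L + 1) * Im (pr (L + 1) p) = Im (ap (L + 1) p) := by
        simp only [D, Im_mul, fc_pr_self]
      have a3 : D (L + 1 + 1) * hh p (L + 1) = hh p (L + 1) * D (L + 1) := by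
        unfold hh
        rw [sum_mul, mul_sum]
        refine sum_congr rfl fun i hi => ?_
        simp only [D, Im_mul, fc_pr_lt (mem_range.1 hi)]
      have a4 : D (L + 1 + 1) * Im (pr (L + 1) p) = Im (ap (L + 1 + 1) p) := by
        simp only [D, Im_mul, fc_pr_succ]
      have a5 : bd (L + 1 + 1) * Im (pr (L + 1) p) =
          Im (pr L p) * bd (L + 1) + Im (ap (L + 1) p) := by
        rw [bd_succ (L + 1), add_mul, a1, a2]
      have a6 : hh p (L + 1) * bd (L + 1 + 1) =
          hh p L * bd (L + 1) + Im (pr L p) * bd (L + 1) + hh p (L + 1) * D (L + 1) := by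
        rw [bd_succ (L + 1), mul_add, ← add_mul, ← hh_succ]
      rw [bd_succ (L + 1 + 1), hh_succ p (L + 1), add_mul, mul_add, mul_add, a3, a4, a5, a6]
      linear_combination (norm := abel1) ih + add_self (Im (pr L p) * bd (L + 1)) +
        add_self (hh p (L + 1) * D (L + 1)) + add_self (Im (ap (L + 1) p))

end Pool.Agent.Lib.MP_3eb21e_gt.Pr
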