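import Pool.Agent.Lib.MP_3eb21e_gt.Pr.Alg

/-!
Cells (sets of at most `n` simplices of a grid) and acyclic box carriers.
-/

noncomputable section

namespace Pool.Agent.Lib.MP_3eb21e_gt.Pr

open Finset
open Pool.Agent.Lib.MP_3eb21e_gt.Ch (F add_self)
open scoped Classical

variable {ι : Type}

abbrev Pt (ι : Type) := ι → ℕ
abbrev Sq (ι : Type) := ℕ → Pt ι

/-- a monotone sequence of `L` grid points inside a unit cube, continued by zero -/
def Simp (L : ℕ) (a : Sq ι) : Prop :=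
  (∀ t, L ≤ t → a t = 0) ∧ ∀ t t', t ≤ t' → t' < L → ∀ i, a t i ≤ a t' i ∧ a t' i ≤ a t i + 1

def Cell (n L : ℕ) (R : Pt ι → Pt ι → Prop) (Q : Finset (Pt ι)) : Set (Finset (Sq ι)) :=
  {A | A.card ≤ n ∧ (∀ a ∈ A, Simp L a ∧ ∃ x ∈ Q, ∀ t < L, R x (a t)) ∧
    ∀ x ∈ Q, ∃ a ∈ A, ∀ t < L, R x (a t)}

variable {n L L' : ℕ} {R R' : Pt ι → Pt ι → Prop} {Q Q' : Finset (Pt ι)}

lemma Cell_image {f : Sq ι → Sq ι} (h : ∀ a, ∀ x ∈ Q, Simp L a → (∀ t < L, R x (a t)) →
    Simp L' (f a) ∧ ∀ t < L', R' x (f a t)) {A : Finset (Sq ι)} (hA : A ∈ Cell n L R Q) :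
    A.image f ∈ Cell n L' R' Q := by
  refine ⟨card_image_le.trans hA.1, fun b hb => ?_, fun x hx => ?_⟩
  · obtain ⟨a, ha, rfl⟩ := mem_image.1 hb
    obtain ⟨h1, x, hx, h2⟩ := hA.2.1 a ha
    exact ⟨(h a x hx h1 h2).1, x, hx, (h a x hx h1 h2).2⟩
  · obtain ⟨a, ha, h2⟩ := hA.2.2 x hx
    exact ⟨f a, mem_image_of_mem f ha, (h a x hx (hA.2.1 a ha).1 h2).2⟩

lemma Cell_mono (h1 : ∀ x' ∈ Q', ∃ x ∈ Q, 0 < L → ∀ y, R' x' y → R x y)
    (h2 : ∀ x ∈ Q, ∃ x' ∈ Q', 0 < L → ∀ y, R' x' y → R x y) : Cell n L R' Q' ⊆ Cell n L R Q := by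
  refine fun A hA => ⟨hA.1, fun a ha => ?_, fun x hx => ?_⟩
  · obtain ⟨h3, x', hx', h4⟩ := hA.2.1 a ha
    obtain ⟨x, hx, h5⟩ := h1 x' hx'
    exact ⟨h3, x, hx, fun t ht => h5 (by omega) _ (h4 t ht)⟩
  · obtain ⟨x', hx', h5⟩ := h2 x hx
    obtain ⟨a, ha, h4⟩ := hA.2.2 x' hx'
    exact ⟨a, ha, fun t ht => h5 (by omega) _ (h4 t ht)⟩

lemma Simp.fc {a : Sq ι} (h : Simp (L + 1) a) {j : ℕ} (hj : j ≤ L) : Simp L (fc j a) := by
  refine ⟨fun t ht => h.1 _ (by split_ifs <;> omega), fun t t' h1 h2 => h.2 _ _ ?_ ?_⟩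
  · split_ifs <;> omega
  · split_ifs <;> omega

lemma Cell_fc {j : ℕ} (hj : j ≤ L) {A : Finset (Sq ι)} (hA : A ∈ Cell n (L + 1) R Q) :
    A.image (fc j) ∈ Cell n L R Q :=
  Cell_image (fun a x _ h1 h2 => ⟨h1.fc hj, fun t ht => h2 _ (by split_ifs <;> omega)⟩) hA

lemma bd_e (L : ℕ) (A : Finset (Sq ι)) : bd L (e A) = ∑ j ∈ range L, e (A.image (fc j)) := by
  simp [bd, D, LinearMap.sum_apply]

lemma bd_mem {x : Chn (Sq ι)} (hx : x ∈ Sp (Cell n (L + 1) R Q)) :
    bd (L + 1) x ∈ Sp (Cell n L R Q) :=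
  Sp_map _ _ (fun c hc => by
    rw [bd_e]
    exact Submodule.sum_mem _ fun j hj => e_mem (Cell_fc (Nat.lt_succ_iff.1 (mem_range.1 hj)) hc)) hx

def cst (L : ℕ) (v : Pt ι) : Sq ι := fun t => if t < L then v else 0

lemma cst_simp (L : ℕ) (v : Pt ι) : Simp L (cst L v) := by
  refine ⟨fun t ht => if_neg (by omega), fun t t' h1 h2 i => ?_⟩
  simp [cst, h2, show t < L by omega]

lemma fc_cst {j : ℕ} (hj : j ≤ L) (v : Pt ι) : fc j (cst (L + 1) v) = cst L v := by
  funext t
  simp only [fc, cst]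
  split_ifs <;> first | rfl | omega

/-- the points of the box of `x` at height at most `s` above its corner -/
def Rs (β : Pt ι → Pt ι) (s : ℕ) (x y : Pt ι) : Prop := β y = β x ∧ ∀ i, y i ≤ β x i + s

lemma acyc (β : Pt ι → Pt ι) (b1 : ∀ x i, β x i ≤ x i)
    (b2 : ∀ x y, (∀ i, β x i ≤ y i) → (∀ i, y i ≤ x i) → β y = β x) (hQ : Q.card ≤ n) (s : ℕ) :
    ∃ h : ℕ → En (Sq ι), ∀ L, ∀ x ∈ Sp (Cell n L (Rs β s) Q),
      h L x ∈ Sp (Cell n (L + 1) (Rs β s) Q) ∧ bd (L + 1) (h L x) + h (L - 1) (bd L x) = x := by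
  induction s with
  | zero =>
    let A : ℕ → Finset (Sq ι) := fun L => Q.image fun x => cst L (β x)
    have hA : ∀ L, A L ∈ Cell n L (Rs β 0) Q := fun L => by
      have h0 : ∀ x, ∀ t < L, Rs β 0 x (cst L (β x) t) := fun x t ht => by
        simp only [cst, if_pos ht]
        exact ⟨b2 _ _ (fun _ => le_rfl) (b1 x), fun _ => le_rfl⟩
      refine ⟨card_image_le.trans hQ, fun a ha => ?_, fun x hx => ⟨_, mem_image_of_mem _ hx, h0 x⟩⟩
      obtain ⟨x, hx, rfl⟩ := mem_image.1 ha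
      exact ⟨cst_simp _ _, x, hx, h0 x⟩
    have hB : ∀ L, ∀ c ∈ Cell n L (Rs β 0) Q, c = A L := fun L c hc => by
      have h0 : ∀ a x, Simp L a → (∀ t < L, Rs β 0 x (a t)) → a = cst L (β x) := fun a x h1 h2 => by
        funext t
        by_cases ht : t < L
        · simp only [cst, if_pos ht]
          funext i
          have h3 := b1 (a t) i
          rw [(h2 t ht).1] at h3
          exact le_antisymm ((h2 t ht).2 i) h3
        · simp only [cst, if_neg ht]
          exact h1.1 t (by omega)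
      ext a
      refine ⟨fun ha => ?_, fun ha => ?_⟩
      · obtain ⟨h1, x, hx, h2⟩ := hc.2.1 a ha
        exact mem_image.2 ⟨x, hx, (h0 a x h1 h2).symm⟩
      · obtain ⟨x, hx, rfl⟩ := mem_image.1 ha
        obtain ⟨a, ha, h2⟩ := hc.2.2 x hx
        rwa [← h0 a x (hc.2.1 a ha).1 h2]
    have hC : ∀ L, bd (L + 1) (e (A (L + 1))) = (L + 1) • e (A L) := fun L => by
      rw [bd_e, sum_congr rfl (g := fun _ => e (A L)), sum_const, card_range]
      intro j hj
      simp only [A, image_image, Function.comp_def, fc_cst (Nat.lt_succ_iff.1 (mem_range.1 hj))]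
    refine ⟨fun L => lin fun _ => e (A (L + 1)), fun L x hx =>
      ⟨Sp_map _ _ (fun c _ => by rw [lin_e]; exact e_mem (hA _)) hx, ?_⟩⟩
    refine Sp_eq (bd (L + 1) * (lin fun _ => e (A (L + 1))) + (lin fun _ => e (A (L - 1 + 1))) * bd L)
      1 (fun c hc => ?_) hx
    rw [hB L c hc]
    simp only [LinearMap.add_apply, Module.End.mul_apply, lin_e, hC, Module.End.one_apply]
    cases L with
    | zero => simp [bd_zero]
    | succ L =>
      rw [hC, map_nsmul, lin_e, Nat.add_sub_cancel, succ_nsmul _ (L + 1), add_right_comm, add_self,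
        zero_add]
  | succ s ih =>
    obtain ⟨h, hh1⟩ := ih
    let p : Pt ι → Pt ι := fun y i => min (y i) (β y i + s)
    have p1 : ∀ x y, Rs β (s + 1) x y → Rs β s x (p y) := fun x y hy => by
      refine ⟨(b2 y (p y) (fun i => ?_) fun i => min_le_left _ _).trans hy.1, fun i => ?_⟩
      · exact le_min (b1 y i) (Nat.le_add_right _ _)
      · rw [← hy.1]; exact min_le_right _ _
    have p2 : ∀ x y, Rs β s x y → Rs β (s + 1) x y := fun x y hy =>
      ⟨hy.1, fun i => (hy.2 i).trans (by omega)⟩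
    have p3 : ∀ L, Cell n L (Rs β s) Q ⊆ Cell n L (Rs β (s + 1)) Q := fun L =>
      Cell_mono (fun x hx => ⟨x, hx, fun _ => p2 x⟩) fun x hx => ⟨x, hx, fun _ => p2 x⟩
    have p4 : ∀ L, ∀ x ∈ Sp (Cell n L (Rs β (s + 1)) Q),
        Im (ap L p) x ∈ Sp (Cell n L (Rs β s) Q) := fun L x hx =>
      Sp_map _ _ (fun c hc => by
        rw [Im_e]
        refine e_mem (Cell_image (fun a x _ h1 h2 => ⟨⟨fun t ht => ?_, fun t t' h3 h4 i => ?_⟩,
          fun t ht => ?_⟩) hc)
        · simp only [ap, if_neg (show ¬ t < L by omega)]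
          exact h1.1 t ht
        · have h5 : t < L := by omega
          have := h1.2 t t' h3 h4 i
          simp only [ap, if_pos h4, if_pos h5, p, (h2 t h5).1, (h2 t' h4).1]
          omega
        · simp only [ap, if_pos ht]
          exact p1 _ _ (h2 t ht)) hx
    have p5 : ∀ L, ∀ x ∈ Sp (Cell n L (Rs β (s + 1)) Q),
        hh p L x ∈ Sp (Cell n (L + 1) (Rs β (s + 1)) Q) := fun L x hx =>
      Sp_map _ _ (fun c hc => by
        rw [hh, LinearMap.sum_apply]
        refine Submodule.sum_mem _ fun j hj => ?_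
        have hj' := mem_range.1 hj
        rw [Im_e]
        refine e_mem (Cell_image (fun a x _ h1 h2 => ⟨⟨fun t ht => ?_, fun t t' h3 h4 i => ?_⟩,
          fun t ht => ?_⟩) hc)
        · simp only [pr, if_neg (show ¬ t ≤ j by omega)]
          exact h1.1 _ (by omega)
        · simp only [pr]
          split_ifs with h5 h6 h6
          · have := h1.2 t t' h3 (by omega) i
            simp only [p, (h2 t (by omega)).1, (h2 t' (by omega)).1]
            omega
          · have := h1.2 t (t' - 1) (by omega) (by omega) i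
            have := (h2 (t' - 1) (by omega)).2 i
            simp only [p, (h2 t (by omega)).1]
            omega
          · omega
          · exact h1.2 _ _ (by omega) (by omega) i
        · simp only [pr]
          split_ifs with h5
          · exact p2 _ _ (p1 _ _ (h2 t (by omega)))
          · exact h2 _ (by omega)) hx
    refine ⟨fun L => hh p L + h L * Im (ap L p), fun L x hx => ⟨?_, ?_⟩⟩
    · exact Submodule.add_mem _ (p5 L x hx) (Sp_mono (p3 _) (hh1 L _ (p4 L x hx)).1)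
    · have q1 := LinearMap.congr_fun (prism p L) x
      have q2 := (hh1 L _ (p4 L x hx)).2
      have q3 := LinearMap.congr_fun (bd_ap p L) x
      simp only [LinearMap.add_apply, Module.End.mul_apply, Module.End.one_apply, map_add] at q1 q3 ⊢
      rw [← q3]
      linear_combination q1 + q2 + add_self (Im (ap L p) x)

/-- the bottom of the run of edges of `W` below `v` -/
def bt (W : Finset ℕ) : ℕ → ℕ
  | 0 => 0
  | v + 1 => if v ∈ W then bt W v else v + 1

lemma bt_le (W : Finset ℕ) (v : ℕ) : bt W v ≤ v := by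
  induction v with
  | zero => exact le_rfl
  | succ v ih => simp only [bt]; split_ifs <;> omega

lemma bt_eq {W : Finset ℕ} {u v : ℕ} (h : u ≤ v) (hW : ∀ t, u ≤ t → t < v → t ∈ W) :
    bt W v = bt W u := by
  induction v, h using Nat.le_induction with
  | base => rfl
  | succ v h ih =>
    simp only [bt, if_pos (hW v h v.lt_succ_self)]
    exact ih fun t h1 h2 => hW t h1 (by omega)

lemma bt_mem {W : Finset ℕ} {v t : ℕ} (h1 : bt W v ≤ t) (h2 : t < v) : t ∈ W := by
  induction v with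
  | zero => omega
  | succ v ih =>
    simp only [bt] at h1
    split_ifs at h1 with h
    · rcases Nat.lt_succ_iff_lt_or_eq.1 h2 with h3 | rfl
      exacts [ih h1 h3, h]
    · omega

lemma bt_mid {W : Finset ℕ} {u v : ℕ} (h1 : bt W v ≤ u) (h2 : u ≤ v) : bt W u = bt W v :=
  (bt_eq h2 fun _ h3 h4 => bt_mem (h1.trans h3) h4).symm

lemma bt_mono {W W' : Finset ℕ} (h : W' ⊆ W) {u v : ℕ} (h1 : bt W' u = bt W' v) :
    bt W u = bt W v := by
  have : ∀ u, bt W u = bt W (bt W' u) := fun u =>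
    bt_eq (bt_le _ _) fun t h1 h2 => h (bt_mem h1 h2)
  rw [this u, this v, h1]

lemma bt_card (W : Finset ℕ) (v : ℕ) : v ≤ bt W v + W.card := by
  have : Ico (bt W v) v ⊆ W := fun t ht => bt_mem (mem_Ico.1 ht).1 (mem_Ico.1 ht).2
  have := card_le_card this
  rw [Nat.card_Ico] at this
  omega

/-- to lie in the same box -/
def Rb (W : ι → Finset ℕ) (x y : Pt ι) : Prop := ∀ i, bt (W i) (y i) = bt (W i) (x i)

lemma acycB (W : ι → Finset ℕ) (s : ℕ) (hs : ∀ i, (W i).card ≤ s) (hQ : Q.card ≤ n) :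
    ∃ h : ℕ → En (Sq ι), ∀ L, ∀ x ∈ Sp (Cell n L (Rb W) Q),
      h L x ∈ Sp (Cell n (L + 1) (Rb W) Q) ∧ bd (L + 1) (h L x) + h (L - 1) (bd L x) = x := by
  have : Rb W = Rs (fun x i => bt (W i) (x i)) s := by
    funext x y
    refine propext ⟨fun h => ⟨funext h, fun i => ?_⟩, fun h => congrFun h.1⟩
    have := bt_card (W i) (y i)
    have := hs i
    have := h i
    show y i ≤ bt (W i) (x i) + s
    omega
  rw [this]
  exact acyc (fun x i => bt (W i) (x i)) (fun x i => bt_le (W i) (x i))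
    (fun x y h1 h2 => funext fun i => bt_mid (W := W i) (h1 i) (h2 i)) hQ s

end Pool.Agent.Lib.MP_3eb21e_gt.Pr
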