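import Pool.Agent.Lib.MP_3eb21e_gt.Pr.Tr

/-!
The discrete coincidence theorem for finite subsets of grids.
-/

noncomputable section

namespace Pool.Agent.Lib.MP_3eb21e_gt.Pr

open Finset
open Pool.Agent.Lib.MP_3eb21e_gt.Ch (F add_self)
open scoped Classical

variable {ι : Type} [Fintype ι] {n L d : ℕ} {m r : ι → ℕ} {Q Q' : Finset (Pt ι)}

def Ok (n : ℕ) (m : ι → ℕ) (B : Finset (Pt ι)) : Prop :=
  B.Nonempty ∧ B.card ≤ n ∧ ∀ x ∈ B, ∀ i, x i ≤ m i

def Cl (t : ℕ) (A B : Finset (Pt ι)) : Prop :=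
  (∀ a ∈ A, ∃ b ∈ B, ∀ i, a i ≤ b i + t ∧ b i ≤ a i + t) ∧
    ∀ b ∈ B, ∃ a ∈ A, ∀ i, a i ≤ b i + t ∧ b i ≤ a i + t

def Full (n L : ℕ) (r : ι → ℕ) : Set (Finset (Sq ι)) := Cell n L (Rb fun i => range (r i)) {0}

def pts (A : Finset (Sq ι)) : Finset (Pt ι) := A.image fun a => a 0

def Nb (r : ι → ℕ) (d : ℕ) (Q : Finset (Pt ι)) (i : ι) : Finset ℕ :=
  (range (r i)).filter fun t => ∃ x ∈ Q, x i ≤ t + d ∧ t < x i + d

def Car (n L : ℕ) (r : ι → ℕ) (d : ℕ) (Q : Finset (Pt ι)) : Set (Finset (Sq ι)) :=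
  Cell n L (Rb (Nb r d Q)) Q

def Deg (L : ℕ) (s : Finset (Sq ι)) : Prop := ∃ i, i + 1 < L ∧ ∀ a ∈ s, a i = a (i + 1)

omit [Fintype ι] in
lemma Rb_range {y : Pt ι} : Rb (fun i => range (r i)) 0 y ↔ ∀ i, y i ≤ r i := by
  refine forall_congr' fun i => ⟨fun h => ?_, fun h => ?_⟩
  · by_contra h1
    have h2 : bt (range (r i)) (y i) = 0 := h
    simpa using bt_mem (W := range (r i)) (v := y i) (t := r i) (by omega) (by omega)
  · exact bt_eq (Nat.zero_le _) fun t _ h2 => mem_range.2 (by omega)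

omit [Fintype ι] in
lemma mem_Full {A : Finset (Sq ι)} : A ∈ Full n L r ↔
    A.card ≤ n ∧ A.Nonempty ∧ ∀ a ∈ A, Simp L a ∧ ∀ t < L, ∀ i, a t i ≤ r i := by
  simp only [Full, Cell, Set.mem_ofPred_eq, mem_singleton, exists_eq_left, forall_eq, Rb_range]
  refine and_congr_right fun _ => ⟨fun h => ⟨h.2.imp fun _ h => h.1, h.1⟩, fun h => ⟨h.2, ?_⟩⟩
  obtain ⟨a, ha⟩ := h.1
  exact ⟨a, ha, (h.2 a ha).2⟩

lemma Full_finite (n L : ℕ) (r : ι → ℕ) : (Full n L r).Finite := by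
  have h1 : {a : Sq ι | Simp L a ∧ ∀ t < L, ∀ i, a t i ≤ r i}.Finite := by
    refine Set.Finite.of_finite_image (f := fun a (t : Fin L) => a t) ?_ ?_
    · refine (Set.Finite.pi' fun _ : Fin L => Set.finite_Iic r).subset ?_
      rintro _ ⟨a, ha, rfl⟩ t
      exact ha.2 t t.2
    · intro a ha b hb h
      funext t
      by_cases ht : t < L
      · exact congrFun h ⟨t, ht⟩
      · rw [ha.1.1 t (by omega), hb.1.1 t (by omega)]
  refine h1.toFinset.powerset.finite_toSet.subset fun A hA => ?_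
  rw [mem_coe, mem_powerset]
  exact fun a ha => h1.mem_toFinset.2 ((mem_Full.1 hA).2.2 a ha)

lemma Full_Ok {A : Finset (Sq ι)} (hA : A ∈ Full n L m) : Ok n m (pts A) := by
  obtain ⟨h1, h2, h3⟩ := mem_Full.1 hA
  refine ⟨h2.image _, card_image_le.trans h1, fun x hx i => ?_⟩
  obtain ⟨a, ha, rfl⟩ := mem_image.1 hx
  rcases L.eq_zero_or_pos with rfl | hL
  · rw [(h3 a ha).1.1 0 le_rfl]
    exact Nat.zero_le _
  · exact (h3 a ha).2 0 hL i

omit [Fintype ι] in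
lemma mem_Nb {i : ι} {t : ℕ} : t ∈ Nb r d Q i ↔ t < r i ∧ ∃ x ∈ Q, x i ≤ t + d ∧ t < x i + d := by
  simp [Nb]

omit [Fintype ι] in
lemma card_Nb (hQ : Q.card ≤ n) (i : ι) : (Nb r d Q i).card ≤ n * (2 * d) := by
  have : Nb r d Q i ⊆ Q.biUnion fun x => Ico (x i - d) (x i + d) := fun v hv => by
    obtain ⟨-, a, ha, h⟩ := mem_Nb.1 hv
    exact mem_biUnion.2 ⟨a, ha, mem_Ico.2 (by omega)⟩
  refine (card_le_card this).trans ((card_biUnion_le_card_mul _ _ (2 * d) fun a _ => ?_).trans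
    (Nat.mul_le_mul_right _ hQ))
  rw [Nat.card_Ico]; omega

omit [Fintype ι] in
lemma Car_mono (hQ : Ok n r Q) (hQ' : Ok n r Q') (h : 0 < L → Cl 1 Q Q') :
    Car n L r d Q' ⊆ Car n L r (d + 1) Q := by
  rcases L.eq_zero_or_pos with rfl | hL
  · exact Cell_mono (fun _ _ => hQ.1.imp fun _ h => ⟨h, fun h => absurd h (lt_irrefl _)⟩)
      fun _ _ => hQ'.1.imp fun _ h => ⟨h, fun h => absurd h (lt_irrefl _)⟩
  have key : ∀ x ∈ Q, ∀ x' ∈ Q', (∀ i, x i ≤ x' i + 1 ∧ x' i ≤ x i + 1) →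
      ∀ y, Rb (Nb r d Q') x' y → Rb (Nb r (d + 1) Q) x y := fun x hx x' hx' h1 y hy i => by
    have h2 : Nb r d Q' i ⊆ Nb r (d + 1) Q i := fun t ht => by
      obtain ⟨h3, b, hb, h4⟩ := mem_Nb.1 ht
      obtain ⟨a, ha, h5⟩ := (h hL).2 b hb
      have := h5 i
      exact mem_Nb.2 ⟨h3, a, ha, by omega⟩
    rw [bt_mono h2 (hy i)]
    have := h1 i
    have := hQ.2.2 x hx i
    have := hQ'.2.2 x' hx' i
    rcases le_total (x i) (x' i) with h3 | h3
    · exact bt_eq h3 fun t _ _ => mem_Nb.2 ⟨by omega, x, hx, by omega⟩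
    · exact (bt_eq h3 fun t _ _ => mem_Nb.2 ⟨by omega, x, hx, by omega⟩).symm
  refine Cell_mono (fun x' hx' => ?_) fun x hx => ?_
  · obtain ⟨x, hx, h1⟩ := (h hL).2 x' hx'
    exact ⟨x, hx, fun _ => key x hx x' hx' h1⟩
  · obtain ⟨x', hx', h1⟩ := (h hL).1 x hx
    exact ⟨x', hx', fun _ => key x hx x' hx' h1⟩

omit [Fintype ι] in
lemma Car_Full (hQ : Ok n r Q) : Car n L r d Q ⊆ Full n L r := by
  have key : ∀ x ∈ Q, ∀ y, Rb (Nb r d Q) x y → Rb (fun i => range (r i)) 0 y :=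
    fun x hx y hy i => (bt_mono (filter_subset _ _) (hy i)).trans (Rb_range.2 (hQ.2.2 x hx) i)
  refine Cell_mono (fun x hx => ⟨0, mem_singleton_self _, fun _ => key x hx⟩) fun z hz => ?_
  obtain ⟨x, hx⟩ := hQ.1
  exact ⟨x, hx, fun _ => mem_singleton.1 hz ▸ key x hx⟩

lemma Car_Cl (hQ : Ok n r Q) (hL : 0 < L) {c : Finset (Sq ι)} (hc : c ∈ Car n L r d Q) :
    Cl (n * (2 * d)) (pts c) Q := by
  have key : ∀ x y, Rb (Nb r d Q) x y → ∀ i, y i ≤ x i + n * (2 * d) ∧ x i ≤ y i + n * (2 * d) :=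
    fun x y h i => by
      have := h i
      have := bt_card (Nb r d Q i) (x i)
      have := bt_card (Nb r d Q i) (y i)
      have := bt_le (Nb r d Q i) (x i)
      have := bt_le (Nb r d Q i) (y i)
      have := card_Nb (r := r) (d := d) hQ.2.1 i
      omega
  refine ⟨fun u hu => ?_, fun x hx => ?_⟩
  · obtain ⟨a, ha, rfl⟩ := mem_image.1 hu
    obtain ⟨-, x, hx, h⟩ := hc.2.1 a ha
    exact ⟨x, hx, key _ _ (h 0 hL)⟩
  · obtain ⟨a, ha, h⟩ := hc.2.2 x hx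
    exact ⟨_, mem_image_of_mem _ ha, key _ _ (h 0 hL)⟩

lemma face_Cl {s : Finset (Sq ι)} (hs : s ∈ Full n (L + 1) m) (j : ℕ) (hL : 0 < L) :
    Cl 1 (pts s) (pts (s.image (fc j))) := by
  have key : ∀ a ∈ s, ∀ i, a 0 i ≤ fc j a 0 i + 1 ∧ fc j a 0 i ≤ a 0 i + 1 := fun a ha i => by
    have := (hs.2.1 a ha).1.2 0 (0 + 1) (by omega) (by omega) i
    simp only [fc]
    split_ifs <;> omega
  refine ⟨fun u hu => ?_, fun u hu => ?_⟩
  · obtain ⟨a, ha, rfl⟩ := mem_image.1 hu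
    exact ⟨_, mem_image_of_mem _ (mem_image_of_mem _ ha), key a ha⟩
  · obtain ⟨_, hb, rfl⟩ := mem_image.1 hu
    obtain ⟨a, ha, rfl⟩ := mem_image.1 hb
    exact ⟨_, mem_image_of_mem _ ha, key a ha⟩

lemma deg_of_big {s : Finset (Sq ι)} (hs : s ∈ Full n L m) (hL : n * Fintype.card ι + 1 < L) :
    Deg L s := by
  by_contra h
  have h1 : ∀ t : Fin (L - 1), ∃ p : s × ι, p.1.1 t p.2 ≠ p.1.1 (t + 1) p.2 := fun t => by
    by_contra h2
    refine h ⟨t, by omega, fun a ha => funext fun i => ?_⟩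
    by_contra h3
    exact h2 ⟨(⟨a, ha⟩, i), h3⟩
  choose f hf using h1
  have h2 : ∀ t t' : Fin (L - 1), t < t' → f t ≠ f t' := fun t t' h3 h4 => by
    have h5 := hf t
    have h6 := hf t'
    rw [← h4] at h6
    have h7 := (hs.2.1 _ (f t).1.2).1.2
    have h8 : (t : ℕ) < t' := h3
    have := h7 t (t + 1) (by omega) (by omega) (f t).2
    have := h7 (t + 1) t' (by omega) (by omega) (f t).2
    have := h7 t' (t' + 1) (by omega) (by omega) (f t).2
    have := h7 t (t' + 1) (by omega) (by omega) (f t).2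
    omega
  have h3 := Fintype.card_le_of_injective f (Function.Injective.of_lt_imp_ne h2)
  rw [Fintype.card_fin, Fintype.card_prod, Fintype.card_coe] at h3
  have := Nat.mul_le_mul_right (Fintype.card ι) hs.1
  omega

omit [Fintype ι] in
lemma deg_bd {s : Finset (Sq ι)} (hs : s ∈ Full n (L + 1) m) (hd : Deg (L + 1) s) (γ : En (Sq ι))
    (hγ : ∀ s ∈ Full n L m, Deg L s → γ (e s) = 0) : γ (bd (L + 1) (e s)) = 0 := by
  obtain ⟨i, hi, h⟩ := hd
  rw [bd_e, map_sum, sum_eq_add_of_mem i (i + 1) (mem_range.2 (by omega)) (mem_range.2 hi)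
    (by omega)]
  · have : s.image (fc i) = s.image (fc (i + 1)) := image_congr fun a ha => by
      funext t
      simp only [fc]
      by_cases ht : t = i
      · rw [ht, if_neg (lt_irrefl _), if_pos i.lt_succ_self, h a ha]
      · congr 1
        split_ifs <;> omega
    rw [this, add_self]
  · intro j hj h1
    have hj' := mem_range.1 hj
    refine hγ _ (Cell_fc (by omega) hs) ?_
    by_cases h2 : j < i
    · refine ⟨i - 1, by omega, fun b hb => ?_⟩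
      obtain ⟨a, ha, rfl⟩ := mem_image.1 hb
      simp only [fc]
      rw [if_neg (by omega), if_neg (by omega), show i - 1 + 1 = i by omega, h a ha]
    · refine ⟨i, by omega, fun b hb => ?_⟩
      obtain ⟨a, ha, rfl⟩ := mem_image.1 hb
      simp only [fc]
      rw [if_pos (by omega), if_pos (by omega), h a ha]

lemma exists_gam (G : Finset (Pt ι) → Finset (Pt ι)) (hG : ∀ B, Ok n m B → Ok n r (G B))
    (hL : ∀ B B', Ok n m B → Ok n m B' → Cl 1 B B' → Cl 1 (G B) (G B')) :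
    ∃ γ : ℕ → En (Sq ι), γ 0 = 1 ∧ (∀ L, ∀ s ∈ Full n L m,
      γ L (e s) ∈ Sp (Car n L r L (G (pts s))) ∧ (Deg L s → γ L (e s) = 0)) ∧
      ∀ L, ∀ s ∈ Full n (L + 1) m, bd (L + 1) (γ (L + 1) (e s)) = γ L (bd (L + 1) (e s)) := by
  let Inv : ℕ → En (Sq ι) → En (Sq ι) → Prop := fun L γp γ => ∀ s ∈ Full n L m,
    (γ (e s) ∈ Sp (Car n L r L (G (pts s))) ∧ (Deg L s → γ (e s) = 0)) ∧
      bd L (γ (e s)) = γp (bd L (e s))
  have step : ∀ L (p : En (Sq ι) × En (Sq ι)), ∃ γn, Inv L p.1 p.2 → Inv (L + 1) p.2 γn := by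
    rintro L ⟨γp, γ⟩
    by_cases hγ : Inv L γp γ
    swap
    · exact ⟨0, fun h => absurd h hγ⟩
    have key : ∀ s, ∃ y, s ∈ Full n (L + 1) m → (y ∈ Sp (Car n (L + 1) r (L + 1) (G (pts s))) ∧
        (Deg (L + 1) s → y = 0)) ∧ bd (L + 1) y = γ (bd (L + 1) (e s)) := by
      intro s
      by_cases hs : s ∈ Full n (L + 1) m
      swap
      · exact ⟨0, fun h => absurd h hs⟩
      by_cases hd : Deg (L + 1) s
      · refine ⟨0, fun _ => ⟨⟨zero_mem _, fun _ => rfl⟩, ?_⟩⟩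
        rw [map_zero, deg_bd hs hd γ fun s hs => (hγ s hs).1.2]
      have hQ := hG _ (Full_Ok hs)
      obtain ⟨h, h1⟩ := acycB (Nb r (L + 1) (G (pts s))) _ (card_Nb hQ.2.1) hQ.2.1
      have y1 : γ (bd (L + 1) (e s)) ∈ Sp (Car n L r (L + 1) (G (pts s))) := by
        rw [bd_e, map_sum]
        refine Submodule.sum_mem _ fun j hj => ?_
        have hs' : s.image (fc j) ∈ Full n L m := Cell_fc (Nat.lt_succ_iff.1 (mem_range.1 hj)) hs
        exact Sp_mono (Car_mono hQ (hG _ (Full_Ok hs')) fun h0 =>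
          hL _ _ (Full_Ok hs) (Full_Ok hs') (face_Cl hs j h0)) (hγ _ hs').1.1
      have y2 : bd L (γ (bd (L + 1) (e s))) = 0 := by
        have := Sp_eq (bd L * γ) (γp * bd L) (fun s' hs' => (hγ s' hs').2) (bd_mem (e_mem hs))
        have h2 := LinearMap.congr_fun (bd_bd L) (e s)
        simp only [Module.End.mul_apply, LinearMap.zero_apply] at this h2
        rw [this, h2, map_zero]
      refine ⟨h L (γ (bd (L + 1) (e s))), fun _ => ⟨⟨(h1 L _ y1).1, fun h => absurd h hd⟩, ?_⟩⟩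
      simpa [y2] using (h1 L _ y1).2
    choose y hy using key
    exact ⟨lin y, fun _ s hs => by rw [lin_e]; exact hy s hs⟩
  choose nx hnx using step
  let q : ℕ → En (Sq ι) × En (Sq ι) := fun L => Nat.rec (0, 1) (fun L p => (p.2, nx L p)) L
  have hq : ∀ L, Inv L (q L).1 (q L).2 := fun L => by
    induction L with
    | zero =>
      refine fun s hs => ⟨⟨e_mem (Cell_mono (fun _ _ => ?_) (fun _ _ => ?_) hs), ?_⟩, rfl⟩
      · exact (hG _ (Full_Ok hs)).1.imp fun _ h => ⟨h, fun h => absurd h (lt_irrefl _)⟩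
      · exact ⟨0, mem_singleton_self _, fun h => absurd h (lt_irrefl _)⟩
      · rintro ⟨i, hi, -⟩
        omega
    | succ L ih => exact hnx L (q L) ih
  exact ⟨fun L => (q L).2, rfl, fun L s hs => (hq L s hs).1, fun L s hs => (hq (L + 1) s hs).2⟩

omit [Fintype ι] in
lemma Full_zero (hn : 1 ≤ n) {c : Finset (Sq ι)} : c ∈ Full n 0 r ↔ c = {0} := by
  rw [mem_Full]
  refine ⟨fun h => ?_, ?_⟩
  · refine h.2.1.subset_singleton_iff.1 fun a ha => mem_singleton.2 ?_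
    exact funext fun t => (h.2.2 a ha).1.1 t t.zero_le
  · rintro rfl
    refine ⟨by simpa using hn, singleton_nonempty _, fun a ha => ?_⟩
    rw [mem_singleton.1 ha]
    exact ⟨⟨fun _ _ => rfl, fun _ _ _ h => absurd h (by omega)⟩, fun _ h => absurd h (by omega)⟩

/-- Lefschetz: an augmented chain map that vanishes in a high degree has a diagonal entry. -/
lemma lefschetz (hn : 1 ≤ n) (ψ : ℕ → En (Sq ι)) (N : ℕ)
    (h1 : ∀ L, ∀ x ∈ Sp (Full n L r), ψ L x ∈ Sp (Full n L r))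
    (h2 : ∀ L, ∀ x ∈ Sp (Full n (L + 1) r), bd (L + 1) (ψ (L + 1) x) = ψ L (bd (L + 1) x))
    (h3 : ψ 0 (e {0}) = e {0}) (h4 : ∀ x ∈ Sp (Full n (N + 1) r), ψ (N + 1) x = 0) :
    ∃ L, ∃ c ∈ Full n (L + 1) r, co c (ψ (L + 1) (e c)) ≠ 0 := by
  by_contra hcon
  push Not at hcon
  obtain ⟨h, hx⟩ : ∃ h : ℕ → En (Sq ι), ∀ L, ∀ x ∈ Sp (Full n L r),
      h L x ∈ Sp (Full n (L + 1) r) ∧ bd (L + 1) (h L x) + h (L - 1) (bd L x) = x :=
    acycB (fun i => range (r i)) (∑ i, r i) (fun i => by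
      rw [card_range]
      exact single_le_sum (fun _ _ => Nat.zero_le _) (mem_univ i)) (by simpa using hn)
  let K : ℕ → Finset (Finset (Sq ι)) := fun L => (Full_finite n L r).toFinset
  have hK : ∀ L, (K L : Set (Finset (Sq ι))) = Full n L r := fun L => by simp [K]
  have hK' : ∀ {L c}, c ∈ K L → c ∈ Full n L r := fun hc => (Full_finite _ _ _).mem_toFinset.1 hc
  let u : ℕ → F := fun L => ∑ c ∈ K L, co c (ψ L (h (L - 1) (bd L (e c))))
  have key : ∀ L, ∑ c ∈ K L, co c (ψ L (e c)) = u (L + 1) + u L := fun L => by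
    have t1 := tr_comm (K L) (K (L + 1)) (bd (L + 1)) (ψ (L + 1) * h L)
      (fun c hc => by rw [hK]; exact bd_mem (e_mem (hK' hc)))
      fun c hc => by rw [hK]; exact h1 _ _ (hx L _ (e_mem (hK' hc))).1
    refine Eq.trans ?_ (congrArg (· + u L) t1)
    rw [← sum_add_distrib]
    refine sum_congr rfl fun c hc => ?_
    rw [Module.End.mul_apply, h2 L _ (hx L _ (e_mem (hK' hc))).1, ← map_add, ← map_add,
      (hx L _ (e_mem (hK' hc))).2]
  have k1 : ∀ L, u (L + 1) = 1 := fun L => by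
    induction L with
    | zero =>
      have k0 : K 0 = {{0}} := by
        ext c
        rw [mem_singleton, ← Full_zero (r := r) hn]
        exact (Full_finite _ _ _).mem_toFinset
      have k2 : u 0 = 0 := by simp [u, bd_zero]
      have := key 0
      rw [k0, sum_singleton, h3, co_e, if_pos rfl, k2, add_zero] at this
      exact this.symm
    | succ L ih =>
      have := key (L + 1)
      rw [sum_eq_zero fun c hc => hcon L c (hK' hc), ih] at this
      linear_combination -this - add_self (1 : F)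
  have k3 : u (N + 1) = 0 := sum_eq_zero fun c hc => by
    rw [Nat.add_sub_cancel, h4 _ (hx N _ (bd_mem (e_mem (hK' hc)))).1, map_zero]
  exact zero_ne_one (k3.symm.trans (k1 N))

theorem disc (hn : 1 ≤ n) (lam : ι → ℕ → ℕ) (h0 : ∀ i, lam i 0 = 0)
    (hm : ∀ i, r i ≤ lam i (m i) + 1)
    (hl : ∀ i, ∀ j < m i, lam i (j + 1) ≤ lam i j + 1 ∧ lam i j ≤ lam i (j + 1) + 1)
    (G : Finset (Pt ι) → Finset (Pt ι)) (hG : ∀ B, Ok n m B → Ok n r (G B))
    (hL : ∀ B B', Ok n m B → Ok n m B' → Cl 1 B B' → Cl 1 (G B) (G B')) :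
    ∃ B, Ok n m B ∧ Cl (n * (2 * (n * Fintype.card ι + 1)) + 1)
      (B.image fun x i => lam i (x i)) (G B) := by
  obtain ⟨γ, g0, g1, g2⟩ := exists_gam G hG hL
  let T : ℕ → Finset (Sq ι) → Set (Finset (Sq ι)) := fun L c => {s | s.card ≤ c.card ∧
    (∀ b ∈ s, ∃ a ∈ c, Ov lam m L a b) ∧ ∀ a ∈ c, ∃ b ∈ s, Ov lam m L a b}
  have t1 : ∀ L, ∀ c ∈ Full n L r, tau lam m L (e c) ∈ Sp (T L c) := fun L c hc => by
    rw [tau, lin_e]
    exact prod_mem _ _ _ fun a ha =>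
      Mt_mem h0 hm hl ((mem_Full.1 hc).2.2 a ha).1 ((mem_Full.1 hc).2.2 a ha).2
  have t2 : ∀ L, ∀ c ∈ Full n L r, T L c ⊆ Full n L m := fun L c hc s hs => by
    refine mem_Full.2 ⟨hs.1.trans hc.1, ?_, fun b hb => ?_⟩
    · obtain ⟨a, ha⟩ := (mem_Full.1 hc).2.1
      exact (hs.2.2 a ha).imp fun _ h => h.1
    · obtain ⟨a, -, h⟩ := hs.2.1 b hb
      exact ⟨h.1, h.2.1⟩
  have t3 : ∀ L, ∀ x ∈ Sp (Full n L r), tau lam m L x ∈ Sp (Full n L m) := fun L x hx =>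
    Sp_map _ _ (fun c hc => Sp_mono (t2 L c hc) (t1 L c hc)) hx
  obtain ⟨L, c, hc, hne⟩ := lefschetz (r := r) hn (fun L => γ L * tau lam m L)
    (n * Fintype.card ι + 1)
    (fun L x hx => Sp_map (γ L) _
      (fun s hs => Sp_mono (Car_Full (hG _ (Full_Ok hs))) (g1 L s hs).1) (t3 L x hx))
    (fun L x hx => by
      have h1 := LinearMap.congr_fun (bd_tau lam m (L + 1)) x
      simp only [Module.End.mul_apply, Nat.add_sub_cancel] at h1 ⊢
      rw [← h1]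
      exact Sp_eq (bd (L + 1) * γ (L + 1)) (γ L * bd (L + 1)) (g2 L) (t3 _ x hx))
    (by rw [g0, one_mul, tau, lin_e, prod_singleton, Mt_zero])
    fun x hx => Sp_eq (γ _) 0
      (fun s hs => (g1 _ s hs).2 (deg_of_big hs (Nat.lt_succ_self _))) (t3 _ x hx)
  obtain ⟨s, hs, hsc⟩ : ∃ s ∈ T (L + 1) c, co c (γ (L + 1) (e s)) ≠ 0 := by
    by_contra hcon
    push Not at hcon
    exact hne (Sp_eq (co c ∘ₗ γ (L + 1)) 0 hcon (t1 _ c hc))
  have hsK := t2 _ c hc hs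
  have hLe : L + 1 ≤ n * Fintype.card ι + 1 := by
    by_contra h
    exact hsc (by rw [(g1 _ s hsK).2 (deg_of_big hsK (by omega)), map_zero])
  have c1 := Car_Cl (hG _ (Full_Ok hsK)) L.succ_pos (Sp_supp (g1 _ s hsK).1 hsc)
  have c2 : n * (2 * (L + 1)) ≤ n * (2 * (n * Fintype.card ι + 1)) :=
    Nat.mul_le_mul_left _ (by omega)
  refine ⟨pts s, Full_Ok hsK, fun x hx => ?_, fun y hy => ?_⟩
  · obtain ⟨_, hx', rfl⟩ := mem_image.1 hx
    obtain ⟨b, hb, rfl⟩ := mem_image.1 hx'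
    obtain ⟨a, ha, h⟩ := hs.2.1 b hb
    obtain ⟨y, hy, h'⟩ := c1.1 _ (mem_image_of_mem _ ha)
    refine ⟨y, hy, fun i => ?_⟩
    have := h.2.2 L.succ_pos i
    have := h' i
    simp only
    omega
  · obtain ⟨_, hx', h'⟩ := c1.2 y hy
    obtain ⟨a, ha, rfl⟩ := mem_image.1 hx'
    obtain ⟨b, hb, h⟩ := hs.2.2 a ha
    refine ⟨_, mem_image_of_mem _ (mem_image_of_mem _ hb), fun i => ?_⟩
    have := h.2.2 L.succ_pos i
    have := h' i
    omega

end Pool.Agent.Lib.MP_3eb21e_gt.Pr
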