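import Pool.Agent.Lib.MP_3eb21e_gt.Pr.Disc

/-!
From the discrete theorem to products of maps onto chainable continua.
-/

noncomputable section

namespace Pool.Agent.Lib.MP_3eb21e_gt.Pr

open Set Topology Filter Uniformity UniformSpace
open Pool.Agent.Lib.MP_3eb21e_gt.Ch (HC half ofFun compact_sym HC_nhds nhds_HC compact_unif sep_HC
  chain_close path_of_conn)

lemma no_approx {X Y : Type} [UniformSpace X] [CompactSpace X] [UniformSpace Y] [T0Space Y]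
    {f : X → Y} (hfu : UniformContinuous f) {n : ℕ} (hn : 1 ≤ n)
    {g : SymProd X n → SymProd Y n} (hg : Continuous g) (hcon : ∀ A, (g A).pts ≠ f '' A.pts) :
    ∃ U ∈ 𝓤 Y, ∀ A : SymProd X n, ¬ HC U (f '' A.pts) (g A).pts := by
  have := compact_sym (E := X) hn
  refine compact_unif (𝓤 Y) (fun (A : SymProd X n) U => ¬ HC U (f '' A.pts) (g A).pts)
    (fun A U U' h h1 h2 => h1 (h2.mono h)) fun A => ?_
  have h1 : ¬ ∀ U ∈ 𝓤 Y, HC U (f '' A.pts) (g A).pts :=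
    fun h => hcon A (sep_HC (A.finite.image f) (g A).finite h).symm
  push Not at h1
  obtain ⟨U0, hU0, h0⟩ := h1
  obtain ⟨U1, hU1, -, -, -, t1⟩ := half hU0
  obtain ⟨V, hV, -, s2, y2, t2⟩ := half hU1
  refine ⟨V, hV, ?_⟩
  filter_upwards [HC_nhds A (hfu hV), hg.continuousAt (HC_nhds (g A) hV)] with A' a1 a2 a3
  have a4 : HC V (f '' A.pts) (f '' A'.pts) := by
    refine ⟨?_, ?_⟩
    · rintro _ ⟨p, hp, rfl⟩
      obtain ⟨q, hq, h⟩ := a1.1 p hp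
      exact ⟨_, mem_image_of_mem f hq, h⟩
    · rintro _ ⟨q, hq, rfl⟩
      obtain ⟨p, hp, h⟩ := a1.2 q hq
      exact ⟨_, mem_image_of_mem f hp, h⟩
  exact h0 ((a4.trans t2 a3).trans t1 ((HC.symm y2 a2).mono s2))

lemma g_unif {X Y : Type} [UniformSpace X] [CompactSpace X] [UniformSpace Y] {n : ℕ} (hn : 1 ≤ n)
    {g : SymProd X n → SymProd Y n} (hg : Continuous g) {L : Set (Y × Y)} (hL : L ∈ 𝓤 Y) :
    ∃ E ∈ 𝓤 X, ∀ A A' : SymProd X n, HC E A.pts A'.pts → HC L (g A).pts (g A').pts := by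
  have := compact_sym (E := X) hn
  refine compact_unif (𝓤 X)
    (fun (A : SymProd X n) E => ∀ A' : SymProd X n, HC E A.pts A'.pts → HC L (g A).pts (g A').pts)
    (fun A E E' h h1 A' h2 => h1 A' (h2.mono h)) fun A => ?_
  obtain ⟨L', hL', -, -, y1, t1⟩ := half hL
  obtain ⟨E0, hE0, h0⟩ := nhds_HC A (hg.continuousAt (HC_nhds (g A) hL'))
  obtain ⟨E1, hE1, -, s2, -, t2⟩ := half hE0
  refine ⟨E1, hE1, ?_⟩
  filter_upwards [HC_nhds A hE1] with A' a1 A'' a2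
  exact (HC.symm y1 (h0 A' (HC.mono s2 a1))).trans t1 (h0 A'' (HC.trans t2 a1 a2))

lemma pi_ent {κ : Type} {Y : κ → Type} [∀ i, UniformSpace (Y i)]
    {U : Set ((∀ i, Y i) × ∀ i, Y i)} (hU : U ∈ 𝓤 (∀ i, Y i)) :
    ∃ (J : Finset κ) (V : ∀ i, Set (Y i × Y i)), (∀ i, V i ∈ 𝓤 (Y i)) ∧
      ∀ p q : ∀ i, Y i, (∀ i ∈ J, (p i, q i) ∈ V i) → (p, q) ∈ U := by
  rw [Pi.uniformity, mem_iInf'] at hU
  obtain ⟨I, hI, W, h1, -, h2, -⟩ := hU
  choose V hV h3 using fun i => mem_comap.1 (h1 i)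
  refine ⟨hI.toFinset, V, hV, fun p q h => ?_⟩
  rw [h2]
  exact mem_iInter₂.2 fun i hi => h3 i (h i (hI.mem_toFinset.2 hi))

lemma label {Y : Type} [UniformSpace Y] [CompactSpace Y] (hY : Chainable Y) (N : ℕ)
    {U : Set (Y × Y)} (hU : U ∈ 𝓤 Y) : ∃ (r : ℕ) (l : Y → ℕ), ∃ L ∈ 𝓤 Y, (∀ y, l y ≤ r) ∧
      (∀ p q, (p, q) ∈ L → l p ≤ l q + 1 ∧ l q ≤ l p + 1) ∧
      (∀ p q, l p ≤ l q + N ∧ l q ≤ l p + N → (p, q) ∈ U) ∧ (∃ y, l y = 0) ∧ ∃ y, r ≤ l y + 1 := by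
  classical
  obtain ⟨U', hU', -, sU, yU, -⟩ := half hU
  obtain ⟨V, hV, hcl⟩ := chain_close N U' hU'
  obtain ⟨V', hV', oV, -, yV, tV⟩ := half hV
  obtain ⟨r, D0, d1, d2, d3, d4⟩ := hY Y (fun y => ball y V') (fun y => isOpen_ball _ oV)
    (eq_univ_of_forall fun y => mem_iUnion.2 ⟨y, mem_ball_self _ hV'⟩)
  let D : ℕ → Set Y := fun i => if h : i < r + 1 then D0 ⟨i, h⟩ else ∅
  have hD : ∀ i (h : i < r + 1), D i = D0 ⟨i, h⟩ := fun i h => dif_pos h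
  have e4 : ∀ i ≤ r, ∀ j ≤ r, (D i ∩ D j).Nonempty ↔ i ≤ j + 1 ∧ j ≤ i + 1 := fun i hi j hj => by
    rw [hD i (by omega), hD j (by omega), d4]
  have e2 : ∀ y, ∃ i, i ≤ r ∧ y ∈ D i := fun y => by
    obtain ⟨i, hi⟩ := mem_iUnion.1 (d2 ▸ mem_univ y)
    exact ⟨i, by omega, by rw [hD i i.2]; exact hi⟩
  let l : Y → ℕ := fun y => Nat.find (e2 y)
  have l1 : ∀ y, l y ≤ r ∧ y ∈ D (l y) := fun y => Nat.find_spec (e2 y)
  have l2 : ∀ y, ∀ k ≤ r, y ∈ D k → l y ≤ k ∧ k ≤ l y + 1 := fun y k hk hy =>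
    ⟨Nat.find_min' _ ⟨hk, hy⟩, ((e4 k hk _ (l1 y).1).1 ⟨y, hy, (l1 y).2⟩).1⟩
  have hcl' := hcl D r (fun i hi a ha b hb => by
    obtain ⟨y, hy⟩ := d3 ⟨i, by omega⟩
    rw [hD i (by omega)] at ha hb
    exact tV _ _ _ (yV _ _ (hy ha)) (hy hb)) fun i hi => (e4 i hi.le _ hi).2 (by omega)
  obtain ⟨L, hL, hleb⟩ := lebesgue_number_lemma isCompact_univ d1 d2.ge
  obtain ⟨y0, hy0, -⟩ := (e4 0 r.zero_le 0 r.zero_le).2 (by omega)
  obtain ⟨y1, hy1, -⟩ := (e4 r le_rfl r le_rfl).2 (by omega)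
  refine ⟨r, l, L, hL, fun y => (l1 y).1, fun p q h => ?_, fun p q h => ?_,
    ⟨y0, Nat.le_zero.1 (l2 _ 0 r.zero_le hy0).1⟩, y1, (l2 _ r le_rfl hy1).2⟩
  · obtain ⟨i, hi⟩ := hleb p trivial
    rw [← hD i i.2] at hi
    have a1 := l2 p i (by omega) (hi (mem_ball_self _ hL))
    have a2 := l2 q i (by omega) (hi h)
    omega
  · rcases le_total (l p) (l q) with h' | h'
    · exact sU (hcl' _ _ h' (l1 q).1 h.2 p (l1 p).2 q (l1 q).2)
    · exact sU (yU _ _ (hcl' _ _ h' (l1 p).1 h.1 q (l1 q).2 p (l1 p).2))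

theorem universal {κ : Type} {X Y : κ → Type} [∀ i, UniformSpace (X i)] [∀ i, CompactSpace (X i)]
    [∀ i, ConnectedSpace (X i)] [∀ i, UniformSpace (Y i)] [∀ i, CompactSpace (Y i)]
    [∀ i, T0Space (Y i)] (hY : ∀ i, Chainable (Y i)) (f : ∀ i, X i → Y i)
    (hf : ∀ i, Continuous (f i)) (hs : ∀ i, Function.Surjective (f i)) {n : ℕ} (hn : 1 ≤ n)
    (g : SymProd (∀ i, X i) n → SymProd (∀ i, Y i) n) (hg : Continuous g) :
    ∃ A, (g A).pts = (fun x i => f i (x i)) '' A.pts := by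
  classical
  by_contra hcon
  push Not at hcon
  have hfu := fun i => CompactSpace.uniformContinuous_of_continuous (hf i)
  obtain ⟨U, hU, hno⟩ := no_approx (CompactSpace.uniformContinuous_of_continuous
    (continuous_pi fun i => (hf i).comp (continuous_apply i))) hn hg hcon
  obtain ⟨J, V, hV, hVU⟩ := pi_ent hU
  choose r l L hL l1 l4 l3 l0 l5 using fun i =>
    label (hY i) (n * (2 * (n * Fintype.card J + 1)) + 1) (hV i)
  have hL' : {p : (∀ i, Y i) × ∀ i, Y i | ∀ i ∈ J, (p.1 i, p.2 i) ∈ L i} ∈ 𝓤 (∀ i, Y i) :=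
    (eventually_all_finset J).2 fun i _ => Pi.uniformContinuous_proj Y i (hL i)
  obtain ⟨E, hE, hgE⟩ := g_unif hn hg hL'
  obtain ⟨-, W, hW, hWE⟩ : ∃ (J : Finset κ) (W : ∀ i, Set (X i × X i)), (∀ i, W i ∈ 𝓤 (X i)) ∧
      ∀ p q : ∀ i, X i, (∀ i, (p i, q i) ∈ W i) → (p, q) ∈ E := by
    obtain ⟨J, W, h1, h2⟩ := pi_ent hE
    exact ⟨J, W, h1, fun p q h => h2 p q fun i _ => h i⟩
  have hpath : ∀ i, ∃ (m : ℕ) (x : ℕ → X i), l i (f i (x 0)) = 0 ∧ r i ≤ l i (f i (x m)) + 1 ∧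
      (∀ j < m, (f i (x j), f i (x (j + 1))) ∈ L i) ∧
      ∀ j ≤ m, ∀ k ≤ m, j ≤ k + 1 ∧ k ≤ j + 1 → (x j, x k) ∈ W i := fun i => by
    obtain ⟨E', hE', -, sE, yE, -⟩ := half (inter_mem (hW i) (hfu i (hL i)))
    obtain ⟨y0, hy0⟩ := l0 i
    obtain ⟨y1, hy1⟩ := l5 i
    obtain ⟨a, rfl⟩ := hs i y0
    obtain ⟨b, rfl⟩ := hs i y1
    obtain ⟨m, x, x0, xm, hx⟩ := path_of_conn hE' a b
    refine ⟨m, x, by rw [x0, hy0], by rwa [xm], fun j hj => (sE (hx j hj)).2,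
      fun j hj k hk h => ?_⟩
    rcases lt_trichotomy j k with h' | rfl | h'
    · obtain rfl : k = j + 1 := by omega
      exact (sE (hx j hk)).1
    · exact refl_mem_uniformity (hW i)
    · obtain rfl : j = k + 1 := by omega
      exact (sE (yE _ _ (hx k hj))).1
  choose m x x0 xm x1 x2 using hpath
  let z : Pt J → ∀ i, X i := fun v i => if h : i ∈ J then x i (v ⟨i, h⟩) else x i 0
  let w : (∀ i, Y i) → Pt J := fun y i => l i (y i)
  let mk : Finset (Pt J) → SymProd (∀ i, X i) n := fun B =>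
    if h : B.Nonempty ∧ B.card ≤ n then
      ⟨z '' B, (Finset.coe_nonempty.2 h.1).image z, B.finite_toSet.image z,
        (ncard_image_le B.finite_toSet).trans (by simpa using h.2)⟩
    else ofFun hn fun _ => z 0
  have hmk : ∀ B, Ok n (fun i : J => m i) B → (mk B).pts = z '' B := fun B h => by
    simp only [mk, dif_pos (And.intro h.1 h.2.1)]
  have hz : ∀ u v : Pt J, (∀ i : J, u i ≤ m i) → (∀ i : J, v i ≤ m i) →
      (∀ i, u i ≤ v i + 1 ∧ v i ≤ u i + 1) → (z u, z v) ∈ E := fun u v hu hv h =>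
    hWE _ _ fun i => by
      by_cases hi : i ∈ J
      · simp only [z, dif_pos hi]
        exact x2 i _ (hu ⟨i, hi⟩) _ (hv ⟨i, hi⟩) (h _)
      · simp only [z, dif_neg hi]
        exact refl_mem_uniformity (hW i)
  obtain ⟨B, hB, hc⟩ := disc (ι := J) (n := n) (m := fun i => m i) (r := fun i => r i) hn
    (fun i j => l i (f i (x i j))) (fun i => x0 i) (fun i => xm i)
    (fun i j hj => (l4 i _ _ (x1 i j hj)).symm)
    (fun B => (g (mk B)).finite.toFinset.image w)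
    (fun B _ => ⟨by simpa using (g (mk B)).nonempty,
      Finset.card_image_le.trans
        ((ncard_eq_toFinset_card _ (g (mk B)).finite).symm.trans_le (g (mk B)).card_le),
      fun j hj i => by
        obtain ⟨y, -, rfl⟩ := Finset.mem_image.1 hj
        exact l1 _ _⟩)
    (fun B B' h h' hc => by
      have a1 : HC E (mk B).pts (mk B').pts := by
        rw [hmk B h, hmk B' h']
        refine ⟨?_, ?_⟩
        · rintro _ ⟨i, hi, rfl⟩
          obtain ⟨j, hj, h1⟩ := hc.1 i hi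
          exact ⟨_, mem_image_of_mem z hj, hz i j (h.2.2 i hi) (h'.2.2 j hj) h1⟩
        · rintro _ ⟨j, hj, rfl⟩
          obtain ⟨i, hi, h1⟩ := hc.2 j hj
          exact ⟨_, mem_image_of_mem z hi, hz i j (h.2.2 i hi) (h'.2.2 j hj) h1⟩
      have a2 := hgE _ _ a1
      refine ⟨fun i hi => ?_, fun j hj => ?_⟩
      · obtain ⟨p, hp, rfl⟩ := Finset.mem_image.1 hi
        obtain ⟨q, hq, h1⟩ := a2.1 p (by simpa using hp)
        exact ⟨w q, Finset.mem_image_of_mem w (by simpa using hq), fun i => l4 _ _ _ (h1 i i.2)⟩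
      · obtain ⟨q, hq, rfl⟩ := Finset.mem_image.1 hj
        obtain ⟨p, hp, h1⟩ := a2.2 q (by simpa using hq)
        exact ⟨w p, Finset.mem_image_of_mem w (by simpa using hp), fun i => l4 _ _ _ (h1 i i.2)⟩)
  refine hno (mk B) ?_
  rw [hmk B hB]
  have fin : ∀ (v : Pt J) (q : ∀ i, Y i), (∀ i : J,
      l i (f i (x i (v i))) ≤ w q i + (n * (2 * (n * Fintype.card J + 1)) + 1) ∧
      w q i ≤ l i (f i (x i (v i))) + (n * (2 * (n * Fintype.card J + 1)) + 1)) →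
      (fun i => f i (z v i), q) ∈ U := fun v q h => hVU _ _ fun i hi => by
    simp only [z, dif_pos hi]
    exact l3 i _ _ (h ⟨i, hi⟩)
  refine ⟨?_, fun q hq => ?_⟩
  · rintro _ ⟨_, ⟨j, hj, rfl⟩, rfl⟩
    obtain ⟨_, h1, h2⟩ := hc.1 _ (Finset.mem_image_of_mem _ hj)
    obtain ⟨q, hq, rfl⟩ := Finset.mem_image.1 h1
    exact ⟨q, by simpa using hq, fin j q h2⟩
  · obtain ⟨_, h1, h2⟩ := hc.2 _ (Finset.mem_image_of_mem w (by simpa using hq))
    obtain ⟨j, hj, rfl⟩ := Finset.mem_image.1 h1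
    exact ⟨_, mem_image_of_mem _ (mem_image_of_mem z hj), fin j q h2⟩

end Pool.Agent.Lib.MP_3eb21e_gt.Pr
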