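import Pool.Agent.Lib.MP_3eb21e_gt.Pr.Car

/-!
The transfer: an odd sum of simplicial maps, multiplied out in the Boolean monoid algebra.
-/

noncomputable section

namespace Pool.Agent.Lib.MP_3eb21e_gt.Pr

open Finset
open Pool.Agent.Lib.MP_3eb21e_gt.Ch (F add_self)
open scoped Classical

/-- the `2 m + 1` maps from the coarse path to the fine path -/
def ph (lam : ℕ → ℕ) (s x : ℕ) : ℕ :=
  (s - 1) / 2 + if s % 2 = 0 ∧ 0 < s ∧ lam ((s - 1) / 2) < x then 1 else 0

lemma ph_zero (lam : ℕ → ℕ) (x : ℕ) : ph lam 0 x = 0 := by simp [ph]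

lemma ph_odd (lam : ℕ → ℕ) (j x : ℕ) : ph lam (2 * j + 1) x = j := by
  unfold ph
  rw [if_neg (by omega)]
  omega

lemma ph_even (lam : ℕ → ℕ) (j x : ℕ) :
    ph lam (2 * j + 2) x = j + if lam j < x then 1 else 0 := by
  unfold ph
  rw [show (2 * j + 2 - 1) / 2 = j by omega]
  split_ifs <;> omega

lemma ph_mono (lam : ℕ → ℕ) (s : ℕ) {x y : ℕ} (h : x ≤ y) :
    ph lam s x ≤ ph lam s y ∧ ph lam s y ≤ ph lam s x + 1 := by
  unfold ph
  split_ifs <;> omega

lemma ph_le (lam : ℕ → ℕ) {s m : ℕ} (h : s < 2 * m + 1) (x : ℕ) : ph lam s x ≤ m := by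
  unfold ph
  split_ifs <;> omega

lemma sum_ph (f : ℕ → F) (m : ℕ) : ∑ s ∈ range (2 * m + 1), f s =
    f 0 + ∑ j ∈ range m, (f (2 * j + 1) + f (2 * j + 2)) := by
  induction m with
  | zero => simp
  | succ m ih =>
    rw [show 2 * (m + 1) + 1 = 2 * m + 1 + 1 + 1 by ring, sum_range_succ, sum_range_succ, ih,
      sum_range_succ]
    ring

lemma tele (f : ℕ → F) (m : ℕ) : f 0 + ∑ j ∈ range m, (f j + f (j + 1)) = f m := by
  induction m with
  | zero => simp
  | succ m ih =>
    rw [sum_range_succ, ← add_assoc, ih, ← add_assoc, add_self, zero_add]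

lemma cnt_zero {lam : ℕ → ℕ} {m r L : ℕ} (h0 : lam 0 = 0) (hm : r ≤ lam m + 1)
    (hl : ∀ j < m, lam (j + 1) ≤ lam j + 1 ∧ lam j ≤ lam (j + 1) + 1) {a b : ℕ → ℕ} (hL : 0 < L)
    (ha : ∀ t < L, a 0 ≤ a t ∧ a t ≤ a 0 + 1) (hr : a 0 ≤ r)
    (hfar : ¬ (lam (b 0) ≤ a 0 + 1 ∧ a 0 ≤ lam (b 0) + 1)) :
    ∑ s ∈ range (2 * m + 1), (if ∀ t < L, ph lam s (a t) = b t then (1 : F) else 0) = 0 := by
  let c : ℕ → F := fun j => if ∀ t < L, j = b t then 1 else 0
  have hc : ∀ j, j ≠ b 0 → c j = 0 := fun j hj => if_neg fun h => hj (h 0 hL)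
  rw [sum_ph]
  simp only [ph_zero, ph_odd, ph_even]
  by_cases h : a 0 + 2 ≤ lam (b 0)
  · have h1 : ∀ j ∈ range m, c j +
        (if ∀ t < L, (j + if lam j < a t then 1 else 0) = b t then (1 : F) else 0) = 0 := by
      intro j hj
      by_cases hj' : j = b 0
      · refine Eq.trans ?_ (add_self (c j))
        congr 1
        refine if_congr (forall₂_congr fun t ht => ?_) rfl rfl
        have := ha t ht
        rw [if_neg (by rw [hj']; omega), add_zero]
      · rw [hc j hj', zero_add, if_neg]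
        intro h2
        have h3 := h2 0 hL
        have := hl j (mem_range.1 hj)
        split_ifs at h3
        · rw [← h3] at h; omega
        · omega
    have h2 : c 0 = 0 := hc 0 fun h3 => by rw [← h3] at h; omega
    exact (congrArg₂ (· + ·) h2 (sum_eq_zero h1)).trans (add_zero _)
  · have h1 : ∀ j ∈ range m, c j +
        (if ∀ t < L, (j + if lam j < a t then 1 else 0) = b t then (1 : F) else 0) =
          c j + c (j + 1) := by
      intro j hj
      congr 1
      have := hl j (mem_range.1 hj)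
      by_cases hj' : j + 1 = b 0
      · refine if_congr (forall₂_congr fun t ht => ?_) rfl rfl
        have := ha t ht
        rw [← hj'] at h hfar
        rw [if_pos (by omega)]
      · rw [hc _ hj', if_neg]
        intro h2
        have h3 := h2 0 hL
        split_ifs at h3
        · omega
        · rw [add_zero] at h3
          rw [← h3] at h hfar
          omega
    have h2 : c m = 0 := hc m fun h3 => by rw [← h3] at h hfar; omega
    exact (congrArg (c 0 + ·) (sum_congr rfl h1)).trans ((tele c m).trans h2)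

variable {ι : Type} [Fintype ι] (lam : ι → ℕ → ℕ) (m : ι → ℕ)

def Ph (σ : ι → ℕ) (y : Pt ι) : Pt ι := fun i => ph (lam i) (σ i) (y i)

def Mt (L : ℕ) (a : Sq ι) : Chn (Sq ι) :=
  ∑ σ ∈ Fintype.piFinset fun i => range (2 * m i + 1), e {ap L (Ph lam σ) a}

def tau (L : ℕ) : En (Sq ι) := lin fun A => ∏ a ∈ A, Mt lam m L a

lemma Mt_zero (a : Sq ι) : Mt lam m 0 a = e {a} := by
  simp only [Mt, ap_zero, id, sum_const, Fintype.card_piFinset, card_range]
  rw [← Nat.cast_smul_eq_nsmul F, Nat.cast_prod, prod_eq_one, one_smul]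
  intro i _
  push_cast
  rw [show (2 : F) = 0 from rfl, zero_mul, zero_add]

lemma bd_tau (L : ℕ) : bd L * tau lam m L = tau lam m (L - 1) * bd L := by
  cases L with
  | zero => simp [bd_zero]
  | succ L =>
    unfold bd
    rw [sum_mul, mul_sum]
    refine sum_congr rfl fun j hj => ext_e fun A => ?_
    have hj' := Nat.lt_succ_iff.1 (mem_range.1 hj)
    simp only [Module.End.mul_apply, tau, lin_e, D, Im_e, Im_prod, Nat.add_sub_cancel]
    rw [← prod_img]
    refine prod_congr rfl fun a _ => ?_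
    simp only [Mt, map_sum, Im_e, image_singleton]
    exact sum_congr rfl fun σ _ => congrArg (fun b => e {b}) (congrFun (fc_ap hj' _) a)

/-- `b` is a simplex of the fine grid over the simplex `a` -/
def Ov (L : ℕ) (a b : Sq ι) : Prop :=
  Simp L b ∧ (∀ t < L, ∀ i, b t i ≤ m i) ∧
    (0 < L → ∀ i, lam i (b 0 i) ≤ a 0 i + 1 ∧ a 0 i ≤ lam i (b 0 i) + 1)

variable {lam m}

lemma Mt_mem {r : ι → ℕ} (h0 : ∀ i, lam i 0 = 0) (hm : ∀ i, r i ≤ lam i (m i) + 1)
    (hl : ∀ i, ∀ j < m i, lam i (j + 1) ≤ lam i j + 1 ∧ lam i j ≤ lam i (j + 1) + 1) {L : ℕ}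
    {a : Sq ι} (ha : Simp L a) (hr : ∀ t < L, ∀ i, a t i ≤ r i) :
    Mt lam m L a ∈ Sp {s | ∃ b, s = {b} ∧ Ov lam m L a b} := by
  refine mem_Sp fun c hc => ?_
  rw [Mt, map_sum] at hc
  obtain ⟨σ, hσ, h1⟩ := exists_ne_zero_of_sum_ne_zero hc
  rw [co_e] at h1
  obtain rfl : {ap L (Ph lam σ) a} = c := by
    by_contra h
    exact h1 (if_neg h)
  refine ⟨_, rfl, ⟨fun t ht => ?_, fun t t' h2 h3 i => ?_⟩, fun t ht i => ?_, fun hL i => ?_⟩
  · simp only [ap, if_neg (show ¬ t < L by omega)]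
    exact ha.1 t ht
  · simp only [ap, if_pos h3, if_pos (show t < L by omega)]
    exact ph_mono _ _ (ha.2 t t' h2 h3 i).1
  · simp only [ap, if_pos ht]
    exact ph_le _ (mem_range.1 (Fintype.mem_piFinset.1 hσ i)) _
  · by_contra hfar
    refine hc ?_
    have h2 : ∀ σ', co {ap L (Ph lam σ) a} (e {ap L (Ph lam σ') a}) = ∏ i,
        (if ∀ t < L, ph (lam i) (σ' i) (a t i) = ap L (Ph lam σ) a t i then (1 : F) else 0) := by
      intro σ'
      rw [co_e, Fintype.prod_boole]
      refine if_congr ?_ rfl rfl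
      rw [singleton_inj]
      refine ⟨fun h i t ht => ?_, fun h => ?_⟩
      · rw [← h]
        simp only [ap, if_pos ht, Ph]
      · funext t i
        by_cases ht : t < L
        · rw [← h i t ht]
          simp only [ap, if_pos ht, Ph]
        · simp only [ap, if_neg ht]
    rw [sum_congr rfl fun σ' _ => h2 σ', ← prod_univ_sum (fun i => range (2 * m i + 1)) fun i s =>
      (if ∀ t < L, ph (lam i) s (a t i) = ap L (Ph lam σ) a t i then (1 : F) else 0)]
    exact prod_eq_zero (mem_univ i) (cnt_zero (a := fun t => a t i)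
      (b := fun t => ap L (Ph lam σ) a t i) (h0 i) (hm i) (hl i) hL
      (fun t ht => ha.2 0 t t.zero_le ht i) (hr 0 hL i) hfar)

lemma prod_mem {X : Type} (T : X → X → Prop) (x : X → Chn X) (A : Finset X)
    (h : ∀ a ∈ A, x a ∈ Sp {s | ∃ b, s = {b} ∧ T a b}) :
    ∏ a ∈ A, x a ∈
      Sp {s | s.card ≤ A.card ∧ (∀ b ∈ s, ∃ a ∈ A, T a b) ∧ ∀ a ∈ A, ∃ b ∈ s, T a b} := by
  induction A using Finset.induction_on with
  | empty =>
    rw [prod_empty, ← e_empty]
    exact e_mem (by simp)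
  | insert a A ha ih =>
    rw [prod_insert ha]
    refine Sp_mul ?_ (h a (mem_insert_self _ _)) (ih fun a' h' => h a' (mem_insert_of_mem h'))
    rintro _ ⟨b, rfl, hb⟩ s ⟨h1, h2, h3⟩
    refine ⟨?_, fun b' hb' => ?_, fun a' ha' => ?_⟩
    · have := card_union_le {b} s
      rw [card_singleton] at this
      rw [card_insert_of_notMem ha]
      omega
    · rcases mem_union.1 hb' with h4 | h4
      · exact ⟨a, mem_insert_self _ _, mem_singleton.1 h4 ▸ hb⟩
      · obtain ⟨a', h5, h6⟩ := h2 b' h4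
        exact ⟨a', mem_insert_of_mem h5, h6⟩
    · rcases mem_insert.1 ha' with rfl | h4
      · exact ⟨b, mem_union_left _ (mem_singleton_self _), hb⟩
      · obtain ⟨b', h5, h6⟩ := h3 a' h4
        exact ⟨b', mem_union_right _ h5, h6⟩

end Pool.Agent.Lib.MP_3eb21e_gt.Pr
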